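import Mathlib
import Pool.Agent.W743.GV.Stm

open Set
open scoped ContDiff

namespace Pool.Agent.W371.GV

open Pool.Agent.W743.GV

theorem lf_apply (a b c : ℝ) (v : E3) : lf a b c v = a * v 0 + b * v 1 + c * v 2 := by
  unfold lf
  simp

theorem t_MOM : S_MOM := by
  intro d b f hD x P hs hP
  have hM : 0 < MM b f (ss x) P := hD.Mpos _ hs _ hP
  have hs0 : 0 < ss x := by
    have h1 := hs.1
    have h2 := hD.hd1
    linarith
  set x0 : ℝ := x 0 with hx0
  set x1 : ℝ := x 1 with hx1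
  set s : ℝ := ss x with hsdef
  have hsx : s = x0 ^ 2 + x1 ^ 2 := rfl
  set r : ℝ := √(MM b f s P) with hr
  have hr2 : r ^ 2 = MM b f s P := Real.sq_sqrt hM.le
  have hr0 : 0 < r := Real.sqrt_pos.mpr hM
  set w : ℝ := wv b f x P with hw
  have hwe : w = f P - (b P - s) := rfl
  have hMM : r ^ 2 = s * (3 * P - (b P - s) ^ 2) - w ^ 2 := by
    rw [hr2, hwe]
    rfl
  have hQ : QQ b f s P = s * (b P - s) - w := rfl
  have hMS : MS b f s P = 3 * P - (b P - s) ^ 2 + 2 * s * (b P - s) - 2 * w := rfl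
  have hV0 : (VV b f x P) 0 = (x0 * r - x1 * w) / s := rfl
  have hV1 : (VV b f x P) 1 = (x1 * r + x0 * w) / s := rfl
  have hV2 : (VV b f x P) 2 = b P - s := rfl
  have hsne : s ≠ 0 := hs0.ne'
  have hrne : r ≠ 0 := hr0.ne'
  have hLp : Lp b f x P (VV b f x P) = 0 := by
    unfold Lp
    rw [lf_apply, hV0, hV1, hV2]
    change (-2 * QQ b f s P * x0 + 2 * r * x1) / s * ((x0 * r - x1 * w) / s) +
      (-2 * QQ b f s P * x1 - 2 * r * x0) / s * ((x1 * r + x0 * w) / s) +
      2 * r * (b P - s) = 0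
    rw [hQ]
    field_simp
    rw [hsx]
    ring
  have hLs : Ls x (VV b f x P) = 2 * r := by
    unfold Ls
    rw [lf_apply, hV0, hV1]
    change 2 * x0 * ((x0 * r - x1 * w) / s) + 2 * x1 * ((x1 * r + x0 * w) / s) +
      0 * (VV b f x P) 2 = 2 * r
    field_simp
    rw [hsx]
    ring
  have hLr : Lr b f x P (VV b f x P) = MS b f s P := by
    unfold Lr
    simp only [ContinuousLinearMap.smul_apply, ContinuousLinearMap.add_apply, smul_eq_mul]
    rw [hLp, hLs]
    change 1 / (2 * r) * (MS b f s P * (2 * r) + MP b f s P * 0) = MS b f s P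
    field_simp
    ring
  have hLw : Lw b f x P (VV b f x P) = 2 * r := by
    unfold Lw
    simp only [ContinuousLinearMap.smul_apply, ContinuousLinearMap.add_apply, smul_eq_mul]
    rw [hLp, hLs]
    ring
  refine ⟨?_, ?_, ?_, hLp⟩
  · unfold L0
    simp only [ContinuousLinearMap.smul_apply, ContinuousLinearMap.add_apply,
      ContinuousLinearMap.sub_apply, smul_eq_mul]
    rw [hLr, hLw, hLs, lf_apply, lf_apply, hV0, hV1]
    unfold Lp
    rw [lf_apply]
    change 1 / s * (r * (1 * ((x0 * r - x1 * w) / s) + 0 * ((x1 * r + x0 * w) / s) +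
      0 * (VV b f x P) 2) + x0 * MS b f s P - w * (0 * ((x0 * r - x1 * w) / s) +
      1 * ((x1 * r + x0 * w) / s) + 0 * (VV b f x P) 2) - x1 * (2 * r)) -
      (x0 * r - x1 * w) / s ^ 2 * (2 * r) +
      ((-2 * QQ b f s P * x0 + 2 * r * x1) / s * (EuclideanSpace.single (0 : Fin 3) (1 : ℝ)) 0 +
      (-2 * QQ b f s P * x1 - 2 * r * x0) / s * (EuclideanSpace.single (0 : Fin 3) (1 : ℝ)) 1 +
      2 * r * (EuclideanSpace.single (0 : Fin 3) (1 : ℝ)) 2) = 0
    have e0 : (EuclideanSpace.single (0 : Fin 3) (1 : ℝ)) 0 = 1 := by simp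
    have e1 : (EuclideanSpace.single (0 : Fin 3) (1 : ℝ)) 1 = 0 := by simp
    have e2 : (EuclideanSpace.single (0 : Fin 3) (1 : ℝ)) 2 = 0 := by simp
    rw [e0, e1, e2, hQ, hMS]
    field_simp
    linear_combination (-x0) * hMM
  · unfold L1
    simp only [ContinuousLinearMap.smul_apply, ContinuousLinearMap.add_apply,
      ContinuousLinearMap.sub_apply, smul_eq_mul]
    rw [hLr, hLw, hLs, lf_apply, lf_apply, hV0, hV1]
    unfold Lp
    rw [lf_apply]
    change 1 / s * (r * (0 * ((x0 * r - x1 * w) / s) + 1 * ((x1 * r + x0 * w) / s) +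
      0 * (VV b f x P) 2) + x1 * MS b f s P + w * (1 * ((x0 * r - x1 * w) / s) +
      0 * ((x1 * r + x0 * w) / s) + 0 * (VV b f x P) 2) + x0 * (2 * r)) -
      (x1 * r + x0 * w) / s ^ 2 * (2 * r) +
      ((-2 * QQ b f s P * x0 + 2 * r * x1) / s * (EuclideanSpace.single (1 : Fin 3) (1 : ℝ)) 0 +
      (-2 * QQ b f s P * x1 - 2 * r * x0) / s * (EuclideanSpace.single (1 : Fin 3) (1 : ℝ)) 1 +
      2 * r * (EuclideanSpace.single (1 : Fin 3) (1 : ℝ)) 2) = 0
    have e0 : (EuclideanSpace.single (1 : Fin 3) (1 : ℝ)) 0 = 0 := by simp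
    have e1 : (EuclideanSpace.single (1 : Fin 3) (1 : ℝ)) 1 = 1 := by simp
    have e2 : (EuclideanSpace.single (1 : Fin 3) (1 : ℝ)) 2 = 0 := by simp
    rw [e0, e1, e2, hQ, hMS]
    field_simp
    linear_combination (-x1) * hMM
  · unfold L2
    simp only [ContinuousLinearMap.smul_apply, ContinuousLinearMap.sub_apply, smul_eq_mul]
    rw [hLp, hLs]
    unfold Lp
    rw [lf_apply]
    change deriv b P * 0 - 2 * r +
      ((-2 * QQ b f s P * x0 + 2 * r * x1) / s * (EuclideanSpace.single (2 : Fin 3) (1 : ℝ)) 0 +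
      (-2 * QQ b f s P * x1 - 2 * r * x0) / s * (EuclideanSpace.single (2 : Fin 3) (1 : ℝ)) 1 +
      2 * r * (EuclideanSpace.single (2 : Fin 3) (1 : ℝ)) 2) = 0
    have e0 : (EuclideanSpace.single (2 : Fin 3) (1 : ℝ)) 0 = 0 := by simp
    have e1 : (EuclideanSpace.single (2 : Fin 3) (1 : ℝ)) 1 = 0 := by simp
    have e2 : (EuclideanSpace.single (2 : Fin 3) (1 : ℝ)) 2 = 1 := by simp
    rw [e0, e1, e2]
    ring

end Pool.Agent.W371.GV
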